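import Pool.Agent.V11287.NP4

open Polynomial

namespace Pool.Agent.Results.MP_3dabd4_an.CMustVanish

/-- The operator `d(P) = c P + P'`. -/
noncomputable def d (c : ℂ) (P : ℂ[X]) : ℂ[X] := C c * P + derivative P

/-- **MP_3dabd4_an, Q1 (yes).**  If `P` is a nonconstant complex polynomial with only simple zeros
and every zero of `d²(P) = c²P + 2cP' + P''` is a zero of `P` or of `d(P) = cP + P'`, then
`c = 0`. -/
theorem result (P : ℂ[X]) (hP : 0 < P.natDegree)
    (hsimple : ∀ z : ℂ, P.IsRoot z → ¬ (derivative P).IsRoot z) (c : ℂ)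
    (hZ : ∀ z : ℂ, (d c (d c P)).IsRoot z → P.IsRoot z ∨ (d c P).IsRoot z) : c = 0 := by
  by_contra hc
  exact Pool.Agent.V11287.NP.main hP (fun z hz h => hsimple z hz h) (Q := C c)
    (by simpa using hc) (fun z hz => hZ z hz)

end Pool.Agent.Results.MP_3dabd4_an.CMustVanish
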